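import Pool.Agent.Run7.h506.TA.Stm2
import Pool.Agent.Run7.h716.TA.GLUE

/-! Piece `GLUE2` of helper506's project TA: the gluing of helper716 with the energy criterion. -/

set_option autoImplicit false

namespace Run7.h594.TA

open Set Filter Topology
open scoped ContDiff
open Pool.Agent.W774.TL Pool.Agent.Run7.h506.TA Run7.h716.TA
open Pool.Agent.TH217.TL (H2 H1 H1_hd H2_hd PerE glue_thm two_le k_le per_bd fderiv_per)

lemma lin_v {m : ℕ} (A : X m × X m × ℝ →L[ℝ] ℝ) (v : X m) :
    A (0, v, 0) = ∑ i, v i * A (0, Pi.single i 1, 0) := by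
  have h1 : ((0, v, 0) : X m × X m × ℝ) =
      ∑ i, v i • ((0, Pi.single i 1, 0) : X m × X m × ℝ) := by
    refine Prod.ext ?_ (Prod.ext ?_ ?_)
    · simp [Prod.fst_sum]
    · rw [Prod.snd_sum, Prod.fst_sum]
      funext j
      simp [Finset.sum_apply, Pi.single_apply]
    · simp [Prod.snd_sum]
  rw [h1, map_sum]
  simp only [map_smul, smul_eq_mul]

lemma comb_LE {m : ℕ} {F1 F2 : X m × X m × ℝ → ℝ} {L : X m → X m → ℝ → ℝ} {x v : X m} {t a b : ℝ}
    (h1 : DifferentiableAt ℝ F1 (x, v, t)) (h2 : DifferentiableAt ℝ F2 (x, v, t))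
    (hL : ∀ (v' : X m) (t' : ℝ), L x v' t' = a * F1 (x, v', t') + b * F2 (x, v', t')) :
    Lt L x v t = a * fderiv ℝ F1 (x, v, t) (0, 0, 1) + b * fderiv ℝ F2 (x, v, t) (0, 0, 1) ∧
    En L x v t = a * (fderiv ℝ F1 (x, v, t) (0, v, 0) - F1 (x, v, t)) +
      b * (fderiv ℝ F2 (x, v, t) (0, v, 0) - F2 (x, v, t)) := by
  constructor
  · have hc : HasDerivAt (fun s : ℝ => ((x, v, s) : X m × X m × ℝ)) (0, 0, 1) t :=
      (hasDerivAt_const t x).prodMk ((hasDerivAt_const t v).prodMk (hasDerivAt_id t))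
    have e : (fun s => L x v s) = fun s => a * F1 (x, v, s) + b * F2 (x, v, s) :=
      funext fun s => hL v s
    unfold Lt
    rw [e]
    exact (((h1.hasFDerivAt.comp_hasDerivAt t hc).const_mul a).fun_add
      ((h2.hasFDerivAt.comp_hasDerivAt t hc).const_mul b)).deriv
  · have hLv : ∀ i, Lv L i x v t = a * fderiv ℝ F1 (x, v, t) (0, Pi.single i 1, 0) +
        b * fderiv ℝ F2 (x, v, t) (0, Pi.single i 1, 0) := by
      intro i
      have hc : HasDerivAt (fun s : ℝ => ((x, Function.update v i s, t) : X m × X m × ℝ))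
          (0, Pi.single i 1, 0) (v i) :=
        (hasDerivAt_const _ x).prodMk ((hasDerivAt_update v i (v i)).prodMk
          (hasDerivAt_const _ t))
      have e : (fun s => L x (Function.update v i s) t) =
          fun s => a * F1 (x, Function.update v i s, t) + b * F2 (x, Function.update v i s, t) :=
        funext fun s => hL _ t
      have e0 : ((x, Function.update v i (v i), t) : X m × X m × ℝ) = (x, v, t) := by
        rw [Function.update_eq_self]
      have h1' : HasFDerivAt F1 (fderiv ℝ F1 (x, v, t)) (x, Function.update v i (v i), t) := by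
        rw [e0]
        exact h1.hasFDerivAt
      have h2' : HasFDerivAt F2 (fderiv ℝ F2 (x, v, t)) (x, Function.update v i (v i), t) := by
        rw [e0]
        exact h2.hasFDerivAt
      unfold Lv
      rw [e]
      exact (((h1'.comp_hasDerivAt (v i) hc).const_mul a).fun_add
        ((h2'.comp_hasDerivAt (v i) hc).const_mul b)).deriv
    unfold En
    rw [hL v t, lin_v (fderiv ℝ F1 (x, v, t)) v, lin_v (fderiv ℝ F2 (x, v, t)) v]
    have e3 : ∑ i, v i * Lv L i x v t =
        a * ∑ i, v i * fderiv ℝ F1 (x, v, t) (0, Pi.single i 1, 0) +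
        b * ∑ i, v i * fderiv ℝ F2 (x, v, t) (0, Pi.single i 1, 0) := by
      rw [Finset.mul_sum, Finset.mul_sum, ← Finset.sum_add_distrib]
      refine Finset.sum_congr rfl fun i _ => ?_
      rw [hLv i]
      ring
    rw [e3]
    ring

lemma conv_En {m : ℕ} {F : X m × X m × ℝ → ℝ} (h : ContDiff ℝ 2 F)
    (h2 : ∀ (q : X m × X m × ℝ) (w : X m), w ≠ 0 → 0 < H2 F q w) (x v : X m) (t : ℝ) :
    -F (x, 0, t) ≤ fderiv ℝ F (x, v, t) (0, v, 0) - F (x, v, t) := by
  have hp : ∀ s : ℝ, ((x, 0, t) : X m × X m × ℝ) + s • ((0, v, 0) : X m × X m × ℝ) =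
      (x, s • v, t) := by
    intro s
    simp [Prod.smul_mk]
  have d1 : ∀ s, HasDerivAt (fun s : ℝ => F (x, s • v, t)) (H1 F (x, s • v, t) v) s := by
    intro s
    have := H1_hd h (x, 0, t) v s
    simp only [hp] at this
    exact this
  have d2 : ∀ s, HasDerivAt (fun s : ℝ => H1 F (x, s • v, t) v) (H2 F (x, s • v, t) v) s := by
    intro s
    have := H2_hd h (x, 0, t) v s
    simp only [hp] at this
    exact this
  have hpos : ∀ s : ℝ, 0 ≤ H2 F (x, s • v, t) v := by
    intro s
    rcases eq_or_ne v 0 with hv | hv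
    · rw [hv]
      unfold H2
      have : ((0, 0, 0) : X m × X m × ℝ) = 0 := rfl
      rw [this]
      simp
    · exact (h2 _ v hv).le
  have hmono : Monotone (fun s : ℝ => H1 F (x, s • v, t) v) := by
    apply monotone_of_deriv_nonneg (fun s => (d2 s).differentiableAt)
    intro s
    rw [(d2 s).deriv]
    exact hpos s
  obtain ⟨ξ, hξ, hs⟩ := exists_hasDerivAt_eq_slope (fun s : ℝ => F (x, s • v, t))
    (fun s : ℝ => H1 F (x, s • v, t) v) (show (0 : ℝ) < 1 by norm_num)
    (fun s _ => (d1 s).continuousAt.continuousWithinAt) (fun s _ => d1 s)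
  have h3 : H1 F (x, ξ • v, t) v ≤ H1 F (x, (1 : ℝ) • v, t) v := hmono hξ.2.le
  simp only [one_smul, zero_smul, sub_zero, div_one] at hs h3
  have h4 : H1 F (x, v, t) v = fderiv ℝ F (x, v, t) (0, v, 0) := rfl
  rw [h4] at h3
  linarith

lemma bd0 {m : ℕ} {F : X m × X m × ℝ → ℝ} (h : Continuous F) (hp : PerE F) :
    ∃ M : ℝ, 0 ≤ M ∧ ∀ (x : X m) (t : ℝ), |F (x, 0, t)| ≤ M := by
  obtain ⟨M, hM0, hM⟩ := per_bd (g := fun z : (X m × X m × ℝ) × X m => F z.1)
    (h.comp continuous_fst) (fun x v t k l w => hp x v t k l) 0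
  exact ⟨M, hM0, fun x t => hM x 0 t 0 (by simp) (by simp)⟩

lemma bdt {m : ℕ} {F : X m × X m × ℝ → ℝ} (h : ContDiff ℝ 2 F) (hp : PerE F) (ρ : ℝ) :
    ∃ M : ℝ, 0 ≤ M ∧ ∀ (x v : X m) (t : ℝ), ‖v‖ ≤ ρ →
      |fderiv ℝ F (x, v, t) (0, 0, 1)| ≤ M := by
  have hc : Continuous (fun z : (X m × X m × ℝ) × X m =>
      fderiv ℝ F z.1 ((0, 0, 1) : X m × X m × ℝ)) :=
    ((h.continuous_fderiv (by norm_num)).comp continuous_fst).clm_apply continuous_const
  obtain ⟨M, hM0, hM⟩ := per_bd hc (fun x v t k l w => by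
    simp only
    rw [fderiv_per hp x v t k l]) ρ
  exact ⟨M, hM0, fun x v t hv => hM x v t 0 hv (by simp)⟩

theorem t_GLUE2 : S_GLUE2 := by
  intro m k ε hk hε0 hε L₀ hL Y hYs hYp hY2 hYsup R
  have ha1 : (0 : ℝ) ≤ ε / 2 := by linarith
  have hab1 : ε / 2 < 3 * ε / 4 := by linarith
  have hb1 : 3 * ε / 4 < ε := by linarith
  have ha2 : (0 : ℝ) ≤ ε / 4 := by linarith
  have hab2 : ε / 4 < 3 * ε / 8 := by linarith
  obtain ⟨B, hBs, hBp, hB2, hBsup, hBR, R', c, hBc⟩ := glue_thm hk
    (U0 := UU (ε / 2) (3 * ε / 4) L₀) (Y0 := U Y)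
    (UU_cd ha1 hab1 hb1 hε hL) (UU_per ha1 hab1 hb1 hL) (UU_pos hk ha1 hab1 hb1 hε hL)
    (hYs.of_le k_le) (fun x v t n l => hYp x v t n l) (fun q w hw => hY2 q w hw)
    (fun K => by
      obtain ⟨C, hC⟩ := hYsup K
      exact ⟨C, fun q => hC q.1 q.2.1 q.2.2⟩) R
  set ch : X m → ℝ := chi (ε / 4) (3 * ε / 8) with hch
  have hsmall : ∀ x : X m, ch x ≠ 0 → x ∈ Tube m (3 * ε / 8) := fun x hx => chi_tube ha2 hab2 hx
  have hUL : ∀ (x v : X m) (t : ℝ), ch x ≠ 0 → UU (ε / 2) (3 * ε / 4) L₀ (x, v, t) = L₀ x v t := by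
    intro x v t hx
    have h1 := hsmall x hx
    have h2 : red x = x := red_eq fun i => (h1 i).trans_le (by linarith)
    have h3 : chi (ε / 2) (3 * ε / 4) x = 1 := chi_one ha1 hab1 fun i => (h1 i).le.trans (by linarith)
    simp only [UU, h2, h3]
    ring
  refine ⟨fun x v t => ch x * B (x, v, t) + (1 - ch x) * L₀ x v t, ⟨?_, ?_, ?_⟩, ?_, ?_, ⟨R', c, ?_⟩, ?_⟩
  · exact ((chi1_cd (ε / 4) (3 * ε / 8)).mul hBs).contDiffOn.add
      ((contDiff_const.sub (chi1_cd (ε / 4) (3 * ε / 8))).contDiffOn.mul hL.1)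
  · intro x v t hx
    constructor
    · have h1 := hBp x v t (Pi.single 0 1) 0
      have h2 : (fun i => x i + (((Pi.single 0 1 : Fin (m + 1) → ℤ) i : ℤ) : ℝ)) =
          Function.update x 0 (x 0 + 1) := by
        funext j
        refine Fin.cases ?_ (fun i => ?_) j
        · simp
        · rw [Function.update_of_ne (Fin.succ_ne_zero i)]
          simp [Fin.succ_ne_zero]
      rw [h2] at h1
      have h3 : t + ((0 : ℤ) : ℝ) = t := by simp
      rw [h3] at h1
      simp only [hch, chi_update]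
      rw [h1, (hL.2.1 x v t hx).1]
    · have h1 := hBp x v t 0 1
      have h2 : (fun i => x i + (((0 : Fin (m + 1) → ℤ) i : ℤ) : ℝ)) = x := by
        funext j
        simp
      rw [h2] at h1
      have h3 : t + ((1 : ℤ) : ℝ) = t + 1 := by simp
      rw [h3] at h1
      simp only [h1, (hL.2.1 x v t hx).2]
  · rintro ⟨x, v, t⟩ hq w hw
    have hx : x ∈ Tube m ε := hq
    have hLs : ContDiffOn ℝ k (U fun x v t => ch x * B (x, v, t) + (1 - ch x) * L₀ x v t)
        {q | q.1 ∈ Tube m ε} :=
      ((chi1_cd (ε / 4) (3 * ε / 8)).mul hBs).contDiffOn.add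
        ((contDiff_const.sub (chi1_cd (ε / 4) (3 * ε / 8))).contDiffOn.mul hL.1)
    have hF := lineOn (isOpen_tube m ε) (hLs.of_le (two_le hk)) x v t w (fun _ => hx)
    have hA := lineOn isOpen_univ (hBs.of_le (two_le hk)).contDiffOn x v t w (fun _ => mem_univ _)
    have hQ := lineOn (isOpen_tube m ε) (hL.1.of_le (two_le hk)) x v t w (fun _ => hx)
    have h1 := comb_aux hF.1 hF.2 hA.1 hA.2 hQ.1 hQ.2 (c := ch x) (fun s => rfl)
    have h2 : 0 < H2 (U L₀) (x, v, t) w := hL.2.2 (x, v, t) hx w hw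
    have h3 : 0 < H2 B (x, v, t) w := hB2 (x, v, t) w hw
    have h4 : ch x ≤ 1 := chi_le_one _ _ x
    have h5 : 0 ≤ ch x := chi_nonneg _ _ x
    show 0 < H2 (U fun x v t => ch x * B (x, v, t) + (1 - ch x) * L₀ x v t) (x, v, t) w
    rw [h1]
    rcases eq_or_lt_of_le h5 with h6 | h6
    · rw [← h6]
      linarith
    · have := mul_pos h6 h3
      have := mul_nonneg (sub_nonneg.2 h4) h2.le
      linarith
  · intro x v t hxv
    by_cases hc : ch x = 0
    · simp only [hc]
      ring
    · have hx := hsmall x hc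
      rcases hxv with h1 | h1
      · exact absurd (tube_mono (by linarith) hx) h1
      · have h2 := hBR (x, v, t) h1
        simp only
        rw [h2, hUL x v t hc]
        ring
  · intro hS K
    obtain ⟨C1, hC1⟩ := hS K
    obtain ⟨C2, hC2⟩ := hBsup K
    refine ⟨max C1 C2, ?_⟩
    intro x v t hx
    have h1 := hC1 x v t hx
    have h2 := hC2 (x, v, t)
    simp only at h2
    have h4 : ch x ≤ 1 := chi_le_one _ _ x
    have h5 : 0 ≤ ch x := chi_nonneg _ _ x
    have h6 := le_max_left C1 C2
    have h7 := le_max_right C1 C2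
    have h8 : ch x * (K * ‖v‖ - max C1 C2) ≤ ch x * B (x, v, t) :=
      mul_le_mul_of_nonneg_left (by linarith) h5
    have h9 : (1 - ch x) * (K * ‖v‖ - max C1 C2) ≤ (1 - ch x) * L₀ x v t :=
      mul_le_mul_of_nonneg_left (by linarith) (sub_nonneg.2 h4)
    simp only
    linarith
  · intro x v t hx hv
    have h1 : ch x = 1 := chi_one ha2 hab2 fun i => (hx i).le
    have h2 := hBc (x, v, t) hv
    simp only
    rw [h1, h2]
    simp only [U]
    ring
  · rintro ⟨CY, hCY⟩ ⟨C0, hC0⟩
    have k2 := two_le hk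
    set W : X m × X m × ℝ → ℝ := UU (ε / 2) (3 * ε / 4) L₀ with hW
    have hWs : ContDiff ℝ 2 W := (UU_cd ha1 hab1 hb1 hε hL).of_le k2
    have hWp : PerE W := UU_per ha1 hab1 hb1 hL
    have hW2 : ∀ (q : X m × X m × ℝ) (w : X m), w ≠ 0 → 0 < H2 W q w :=
      UU_pos hk ha1 hab1 hb1 hε hL
    have hBs2 : ContDiff ℝ 2 B := hBs.of_le k2
    have hYs2 : ContDiff ℝ 2 (U Y) := hYs.of_le (k_le (k := 2))
    have hYp' : PerE (U Y) := fun x v t n l => hYp x v t n l
    have hWd : Differentiable ℝ W := hWs.differentiable (by norm_num)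
    have hBd : Differentiable ℝ B := hBs2.differentiable (by norm_num)
    have hYd : Differentiable ℝ (U Y) := hYs2.differentiable (by norm_num)
    obtain ⟨MB, hMB0, hMB⟩ := bdt hBs2 hBp R'
    obtain ⟨MW, hMW0, hMW⟩ := bdt hWs hWp R'
    obtain ⟨NY, hNY0, hNY⟩ := bd0 hYs2.continuous hYp'
    obtain ⟨NW, hNW0, hNW⟩ := bd0 hWs.continuous hWp
    set Cm : ℝ := |CY| + |C0| with hCm
    have hCm0 : 0 ≤ Cm := by positivity
    set Cf : ℝ := Cm * (1 + 2 * (NY + NW) + |c|) + MB + MW with hCf
    have hle : C0 ≤ Cf := by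
      have h1 := le_abs_self C0
      have h2 := abs_nonneg CY
      have h3 : 0 ≤ Cm * (2 * (NY + NW) + |c|) := by positivity
      rw [hCf]
      nlinarith
    refine ⟨Cf, fun x v t hx => ?_⟩
    set LL : X m → X m → ℝ → ℝ := fun x v t => ch x * B (x, v, t) + (1 - ch x) * L₀ x v t with hLL
    by_cases hc : ch x = 0
    · have e0 : ∀ v' t', LL x v' t' = L₀ x v' t' := by
        intro v' t'
        simp only [hLL, hc]
        ring
      have e1 : Lt LL x v t = Lt L₀ x v t := by
        unfold Lt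
        simp only [e0]
      have e2 : En LL x v t = En L₀ x v t := by
        unfold En Lv
        simp only [e0]
      rw [e1, e2]
      refine (hC0 x v t hx).trans ?_
      exact mul_le_mul_of_nonneg_right hle (by positivity)
    · have hcomb := comb_LE (L := LL) (x := x) (v := v) (t := t) (a := ch x) (b := 1 - ch x)
        (hBd _) (hWd _) (fun v' t' => by
          simp only [hLL]
          rw [hUL x v' t' hc])
      have hcomb0 := comb_LE (L := L₀) (x := x) (v := v) (t := t) (a := 0) (b := 1)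
        (hWd _) (hWd _) (fun v' t' => by
          rw [hUL x v' t' hc]
          ring)
      have hcombY := comb_LE (L := Y) (x := x) (v := v) (t := t) (a := 0) (b := 1)
        (hYd _) (hYd _) (fun v' t' => by
          simp only [U]
          ring)
      simp only [zero_mul, zero_add, one_mul] at hcomb0 hcombY
      have h4 : ch x ≤ 1 := chi_le_one _ _ x
      have h5 : 0 ≤ ch x := chi_nonneg _ _ x
      have h6 := abs_nonneg (En LL x v t)
      rcases le_or_gt ‖v‖ R' with hv | hv
      · have h1 := hMB x v t hv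
        have h2 := hMW x v t hv
        have h3 : |Lt LL x v t| ≤ MB + MW := by
          rw [hcomb.1]
          refine (abs_add_le _ _).trans ?_
          rw [abs_mul, abs_mul, abs_of_nonneg h5, abs_of_nonneg (sub_nonneg.2 h4)]
          have := abs_nonneg (fderiv ℝ B (x, v, t) (0, 0, 1))
          have := abs_nonneg (fderiv ℝ W (x, v, t) (0, 0, 1))
          nlinarith
        have h7 : MB + MW ≤ Cf := by
          have : 0 ≤ Cm * (1 + 2 * (NY + NW) + |c|) := by positivity
          rw [hCf]
          linarith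
        nlinarith
      · have hBY : B =ᶠ[𝓝 (x, v, t)] fun q => U Y q + c := by
          have h1 : ∀ᶠ q in 𝓝 ((x, v, t) : X m × X m × ℝ), R' < ‖q.2.1‖ := by
            have h2 : ContinuousAt (fun q : X m × X m × ℝ => ‖q.2.1‖) (x, v, t) := by fun_prop
            exact h2.eventually (lt_mem_nhds hv)
          filter_upwards [h1] with q hq
          exact hBc q hq.le
        have hfd : fderiv ℝ B (x, v, t) = fderiv ℝ (U Y) (x, v, t) := by
          rw [hBY.fderiv_eq, fderiv_add_const]
        have hB0 : B (x, v, t) = U Y (x, v, t) + c := hBc (x, v, t) hv.le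
        have gY := conv_En hYs2 (fun q w hw => hY2 q w hw) x v t
        have gW := conv_En hWs hW2 x v t
        have nY := (abs_le.1 (hNY x t)).2
        have nW := (abs_le.1 (hNW x t)).2
        have uY := hCY x v t
        have uW := hC0 x v t hx
        rw [hcombY.1, hcombY.2] at uY
        rw [hcomb0.1, hcomb0.2] at uW
        have h1 := hcomb.1
        have h2 := hcomb.2
        rw [hfd] at h1 h2
        rw [hB0] at h2
        set dY := fderiv ℝ (U Y) (x, v, t) (0, 0, 1)
        set dW := fderiv ℝ W (x, v, t) (0, 0, 1)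
        set eY := fderiv ℝ (U Y) (x, v, t) (0, v, 0) - U Y (x, v, t) with heY
        set eW := fderiv ℝ W (x, v, t) (0, v, 0) - W (x, v, t) with heW
        have h2' : En LL x v t = ch x * eY + (1 - ch x) * eW - ch x * c := by
          rw [h2, heY]
          ring
        have aY : |eY| ≤ eY + 2 * (NY + NW) := by
          rw [abs_le]
          constructor <;> linarith
        have aW : |eW| ≤ eW + 2 * (NY + NW) := by
          rw [abs_le]
          constructor <;> linarith
        have bY : |dY| ≤ Cm * (1 + |eY|) := by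
          refine uY.trans (mul_le_mul_of_nonneg_right ?_ (by positivity))
          have := le_abs_self CY
          have := abs_nonneg C0
          rw [hCm]
          linarith
        have bW : |dW| ≤ Cm * (1 + |eW|) := by
          refine uW.trans (mul_le_mul_of_nonneg_right ?_ (by positivity))
          have := le_abs_self C0
          have := abs_nonneg CY
          rw [hCm]
          linarith
        have s1 : |Lt LL x v t| ≤ ch x * (Cm * (1 + |eY|)) + (1 - ch x) * (Cm * (1 + |eW|)) := by
          rw [h1]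
          refine (abs_add_le _ _).trans ?_
          rw [abs_mul, abs_mul, abs_of_nonneg h5, abs_of_nonneg (sub_nonneg.2 h4)]
          exact add_le_add (mul_le_mul_of_nonneg_left bY h5)
            (mul_le_mul_of_nonneg_left bW (sub_nonneg.2 h4))
        have s2 : ch x * (1 + |eY|) + (1 - ch x) * (1 + |eW|) ≤
            1 + 2 * (NY + NW) + |c| + |En LL x v t| := by
          have t1 := mul_le_mul_of_nonneg_left aY h5
          have t2 := mul_le_mul_of_nonneg_left aW (sub_nonneg.2 h4)
          have t3 := le_abs_self (En LL x v t)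
          have t4 : ch x * c ≤ |c| := by
            have := le_abs_self c
            have := abs_nonneg c
            nlinarith
          rw [h2'] at t3 ⊢
          nlinarith
        have s3 : |Lt LL x v t| ≤ Cm * (1 + 2 * (NY + NW) + |c| + |En LL x v t|) := by
          refine s1.trans ?_
          have := mul_le_mul_of_nonneg_left s2 hCm0
          nlinarith
        refine s3.trans ?_
        have s4 : 0 ≤ Cm * (2 * (NY + NW) + |c|) * |En LL x v t| := by positivity
        have s5 : 0 ≤ (MB + MW) * (1 + |En LL x v t|) := by positivity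
        rw [hCf]
        nlinarith

end Run7.h594.TA
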