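import Pool.Agent.Run7.h506.TA.Stm2
import Pool.Agent.Run7.h171.TA.HSUP

/-! Piece `HGR` of helper506's project TA: the growth of the time derivative of the Hamiltonian. -/

set_option autoImplicit false

namespace Run7.h594.TA

open Pool.Agent.Run7.h506.TA Pool.Agent.W774.TL Set Filter Topology

theorem t_HGR : S_GRT → S_KF → S_HGR := by
  intro hG hKF m c hc
  obtain ⟨C0, hC0⟩ := hG
  obtain ⟨hlow, -⟩ := Pool.Agent.W819.TL.sup_thm sum_thm
  obtain ⟨B, hB⟩ := hlow (2 * (c * m))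
  have hK := (hKF c hc).2
  have hm : (0 : ℝ) ≤ m := Nat.cast_nonneg m
  have hcm : 0 ≤ c * m := mul_nonneg hc.le hm
  refine ⟨|C0| * (2 + 2 * (c * m) + 3 * |B|), fun x p t => ?_⟩
  have e1 : (fun s => HH c x p s) =
      fun s => h (x 0) (p 0) s + (-(K c (p 0) * bet x) + ∑ i : Fin m, p i.succ ^ 2 / 2) := by
    funext s
    unfold HH
    ring
  have e2 : deriv (fun s => HH c x p s) t = deriv (fun s => h (x 0) (p 0) s) t := by
    rw [e1, deriv_add_const]
  rw [e2]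
  have h1 := hC0 (x 0) (p 0) t
  have h2 := hB (x 0) (p 0) t
  obtain ⟨_, _, _, _, _, _, hKge, hKle, _, _⟩ := hK (p 0)
  have hb0 := Pool.Agent.Run7.h171.TA.bet_nonneg x
  have hb1 := Pool.Agent.Run7.h171.TA.bet_le x
  have h3 : K c (p 0) * bet x ≤ c * (1 + |p 0|) * m :=
    mul_le_mul hKle hb1 hb0 (by positivity)
  have h4 : 0 ≤ ∑ i : Fin m, p i.succ ^ 2 / 2 := Finset.sum_nonneg fun i _ => by positivity
  have h5 : h (x 0) (p 0) t - K c (p 0) * bet x + ∑ i : Fin m, p i.succ ^ 2 / 2 = HH c x p t := rfl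
  have h6 : 0 ≤ c * m * |p 0| := mul_nonneg hcm (abs_nonneg _)
  have h7 := le_abs_self B
  have h8 := neg_abs_le B
  have h9 := le_abs_self (HH c x p t)
  have h10 := abs_nonneg (HH c x p t)
  have h11 : |h (x 0) (p 0) t| ≤ 2 * |HH c x p t| + 2 * (c * m) + 3 * |B| := by
    rw [abs_le]
    constructor <;> nlinarith
  have h12 : C0 * (1 + |h (x 0) (p 0) t|) ≤ |C0| * (1 + |h (x 0) (p 0) t|) :=
    mul_le_mul_of_nonneg_right (le_abs_self C0) (by positivity)
  have h13 : |C0| * (1 + |h (x 0) (p 0) t|) ≤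
      |C0| * ((2 + 2 * (c * m) + 3 * |B|) * (1 + |HH c x p t|)) := by
    apply mul_le_mul_of_nonneg_left _ (abs_nonneg C0)
    nlinarith [mul_nonneg hcm h10, mul_nonneg (abs_nonneg B) h10]
  calc |deriv (fun s => h (x 0) (p 0) s) t| ≤ C0 * (1 + |h (x 0) (p 0) t|) := h1
    _ ≤ _ := h12
    _ ≤ _ := h13
    _ = _ := by ring

end Run7.h594.TA
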